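import Pool.Agent.H7.SE.Joint

set_option autoImplicit false

/-!
# Sofic entropy values of shifts of finite type over free groups: prescribed joint entropies

`Approx`, `IsSFT`, `Om`, `ent` (in `Pool/Agent/H7/SE/Defs.lean`) are the sofic approximations, shifts
of finite type, microstates and the sofic entropy of the problem; `entInf` is the sofic entropy with
`liminf` in place of `limsup`.
-/

namespace Pool.Agent.Results.MP_6ea370_an.JointSpectrum

open Pool.Agent.H7.SE

/-- (1) the answer to Q1; (2) there are shifts of finite type `X 0, X 1, ...` such that the entropy of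
`X j` lies in `{-∞} ∪ [0, log a j]` for all sofic approximations, and any finitely many of the
entropies can be prescribed in these sets with respect to one sofic approximation by homomorphisms,
for the entropy with `limsup` and for the entropy with `liminf` -/
theorem result (r : ℕ) (hr : 2 ≤ r) :
    {h : EReal | ∃ (S : Approx (FreeGroup (Fin r))) (A : Type) (_ : Finite A)
      (X : Set (FreeGroup (Fin r) → A)), IsSFT X ∧ h = ent S X} =
      {⊥} ∪ {h : EReal | ∃ x : ℝ, 0 ≤ x ∧ h = x} ∧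
    ∀ a : ℕ → ℕ, (∀ j, 1 ≤ a j) → ∃ (A : ℕ → Type) (_ : ∀ j, Finite (A j))
      (X : ∀ j, Set (FreeGroup (Fin r) → A j)), (∀ j, IsSFT (X j) ∧ (X j).Nonempty) ∧
      (∀ (S : Approx (FreeGroup (Fin r))) (j : ℕ),
        ent S (X j) = ⊥ ∨ ∃ x : ℝ, 0 ≤ x ∧ x ≤ Real.log (a j) ∧ ent S (X j) = x) ∧
      ∀ (J : Finset ℕ) (h : ℕ → EReal),
        (∀ j ∈ J, h j = ⊥ ∨ ∃ x : ℝ, 0 ≤ x ∧ x ≤ Real.log (a j) ∧ h j = x) →
        ∃ S : Approx (FreeGroup (Fin r)), (∀ n s t, S.π n (s * t) = S.π n s * S.π n t) ∧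
          ∀ j ∈ J, ent S (X j) = h j ∧ entInf S (X j) = h j := by
  refine ⟨?_, fun a ha => ⟨_, fun j => inferInstance, fun j => XX r (ta j) (la (a j)),
    fun j => ⟨sft _ _ _, XX_nonempty r j (a j) (ha j)⟩,
    fun S j => ent_mem (by omega) S j (a j) (ha j), fun J h hh => joint hr a ha J h hh⟩⟩
  ext h
  constructor
  · rintro ⟨S, A, _, X, -, rfl⟩
    exact range_ent S X
  · intro hh
    obtain ⟨b, hb, hb2⟩ : ∃ b : ℕ, 1 ≤ b ∧ (h = ⊥ ∨ ∃ x : ℝ, 0 ≤ x ∧ x ≤ Real.log b ∧ h = x) := by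
      rcases hh with rfl | ⟨x, hx, rfl⟩
      · exact ⟨1, le_rfl, Or.inl rfl⟩
      · obtain ⟨b, hb⟩ := exists_nat_gt (Real.exp x)
        have h0 : (0 : ℝ) < b := (Real.exp_pos x).trans hb
        exact ⟨b, Nat.cast_pos.1 h0, Or.inr ⟨x, hx, ((Real.lt_log_iff_exp_lt h0).2 hb).le, rfl⟩⟩
    obtain ⟨S, -, hS⟩ := joint hr (fun _ => b) (fun _ => hb) {0} (fun _ => h) (fun _ _ => hb2)
    exact ⟨S, _, inferInstance, _, sft r (ta 0) (la b),
      (hS 0 (Finset.mem_singleton_self 0)).1.symm⟩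

end Pool.Agent.Results.MP_6ea370_an.JointSpectrum
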